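import Pool.Agent.Helper69.MWF.Stmts

/-!
# MP_80e84b_lc (S14965), module REP: a Borel representation of the automorphism which is
continuous with continuous inverse on a residual set
-/

set_option autoImplicit false

open Topology Set Filter
open Nat.Partrec (Code)

namespace Pool.Agent.Helper20.MWF

open Pool.Agent.Helper95.MW
open Pool.Agent.Helper69.MWF

theorem le_cat (f : ℕ → ℕ) (n : ℕ) (y : ℕ → ℕ) : LE (cat f n y) y := by
  rw [le_iff]
  have h1 : RT y (fun i => y (i - n)) :=
    rt_comp (rt_oracle y) (rt_prim (Primrec.nat_iff.1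
      (Primrec.nat_sub.comp Primrec.id (Primrec.const n))))
  have h2 : Nat.Primrec (fun v : ℕ => if v.unpair.1 < n then ((ini f n).getD v.unpair.1 0)
      else v.unpair.2) := by
    refine Primrec.nat_iff.1 ?_
    refine Primrec.ite (Primrec.nat_lt.comp (Primrec.fst.comp Primrec.unpair)
      (Primrec.const n)) ?_ (Primrec.snd.comp Primrec.unpair)
    exact (Primrec.list_getD 0).comp (Primrec.const (ini f n)) (Primrec.fst.comp Primrec.unpair)
  have h3 := rt_comp (rt_prim (w := y) h2)
    (rt_pair (rt_prim (w := y) (Primrec.nat_iff.1 Primrec.id)) h1)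
  have e : cat f n y = fun i => if (Nat.pair (id i) (y (i - n))).unpair.1 < n then
      ((ini f n).getD (Nat.pair (id i) (y (i - n))).unpair.1 0)
      else (Nat.pair (id i) (y (i - n))).unpair.2 := by
    funext i
    simp only [Nat.unpair_pair, id]
    unfold cat
    split_ifs with h
    · rw [List.getD_eq_getElem?_getD, ini_get? h]
      rfl
    · rfl
  rw [e]
  exact h3

theorem cat_le (f : ℕ → ℕ) (n : ℕ) (y : ℕ → ℕ) : LE y (cat f n y) := by
  rw [le_iff]
  have h1 : RT (cat f n y) (fun i => (cat f n y) (i + n)) :=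
    rt_comp (rt_oracle _) (rt_prim (Primrec.nat_iff.1
      (Primrec.nat_add.comp Primrec.id (Primrec.const n))))
  have e : (fun i => (cat f n y) (i + n)) = y := by
    funext i
    unfold cat
    rw [if_neg (by omega), Nat.add_sub_cancel]
  rwa [e] at h1

theorem te_piInv {π : (ℕ → ℕ) → (ℕ → ℕ)} (hπ : PiAut π) (h : ℕ → ℕ) : TE (π (piInv π h)) h := by
  classical
  have h1 : ∃ f, TE (π f) h := hπ.surj h
  unfold piInv
  rw [dif_pos h1]
  exact h1.choose_spec

theorem piInv_aut {π : (ℕ → ℕ) → (ℕ → ℕ)} (hπ : PiAut π) : PiAut (piInv π) := by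
  constructor
  · intro g f
    rw [hπ.iff (piInv π g) (piInv π f)]
    constructor
    · intro h
      exact ((te_piInv hπ g).1.trans h).trans (te_piInv hπ f).2
    · intro h
      exact ((te_piInv hπ g).2.trans h).trans (te_piInv hπ f).1
  · intro h
    refine ⟨π h, ?_, ?_⟩
    · rw [hπ.iff]
      exact (te_piInv hπ _).1
    · rw [hπ.iff]
      exact (te_piInv hπ _).2

theorem piInv_te {π : (ℕ → ℕ) → (ℕ → ℕ)} (hπ : PiAut π) (x : ℕ → ℕ) : TE (piInv π (π x)) x := by
  constructor
  · rw [hπ.iff]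
    exact (te_piInv hπ _).1
  · rw [hπ.iff]
    exact (te_piInv hπ _).2

theorem jn_mono_right {b y z : ℕ → ℕ} (h : LE y z) : LE (jn b y) (jn b z) :=
  jn_le (le_jn_left _ _) (h.trans (le_jn_right _ _))

theorem measurable_jn_right (b : ℕ → ℕ) : Measurable (fun y : ℕ → ℕ => jn b y) := by
  refine measurable_pi_iff.2 fun n => ?_
  exact (measurable_from_top (f := fun k : ℕ => Nat.pair (b n) k)).comp (measurable_pi_apply n)

theorem measurable_cat (f : ℕ → ℕ) (n : ℕ) : Measurable (fun y : ℕ → ℕ => cat f n y) := by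
  refine measurable_pi_iff.2 fun i => ?_
  unfold cat
  by_cases h : i < n
  · simp only [if_pos h]
    exact measurable_const
  · simp only [if_neg h]
    exact measurable_pi_apply _

theorem rep (hU : ST_UNIF) (hMC : ST_MC) (hG : ST_GLOB) (hU1 : ST_UNI1) (hB : ST_BORSW)
    (hR : ST_RES) : ST_REP := by
  intro π hπ
  obtain ⟨F0, hF0m, hF0⟩ := hU π hπ
  obtain ⟨b, hb⟩ := hG (piInv π) (piInv_aut hπ)
  have hb' : ∀ x, LE x (jn b (π x)) := fun x => (piInv_te hπ x).2.trans (hb (π x))
  obtain ⟨c, f, n, -, -, hc⟩ := hU1 Code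
    (fun c => {x | segs x = WC c (jn b (F0 x))})
    (fun c => by
      have h1 : Measurable (fun x : ℕ → ℕ => (x, jn b (F0 x))) :=
        measurable_id.prodMk ((measurable_jn_right b).comp hF0m)
      exact h1 (hB c))
    (hF0.mono fun x hx => by
      have h1 : LE x (jn b (F0 x)) := (hb' x).trans (jn_mono_right hx.2)
      exact ceIn_iff.1 (le_iff_segs.1 h1)) (fun _ => 0) 0
  obtain ⟨-, -, -, hcat, -⟩ := hR
  set F : (ℕ → ℕ) → (ℕ → ℕ) := fun y => F0 (cat f n y) with hF
  have hFm : Measurable F := hF0m.comp (measurable_cat f n)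
  have h1 : ∀ᶠ y in residual (ℕ → ℕ), segs (cat f n y) = WC c (jn b (F y)) :=
    (hcat f n (fun x => segs x = WC c (jn b (F0 x)))).1 hc
  have h2 : ∀ᶠ y in residual (ℕ → ℕ), TE (F0 (cat f n y)) (π (cat f n y)) :=
    (hcat f n (fun x => TE (F0 x) (π x))).1 (hF0.mono fun x hx _ => hx)
  obtain ⟨G0, hG0, hG0c⟩ := hMC F hFm
  refine ⟨F, {y | y ∈ G0 ∧ TE (F0 (cat f n y)) (π (cat f n y)) ∧
    segs (cat f n y) = WC c (jn b (F y))}, ?_, ?_, hFm, ?_, ?_⟩
  · exact (Filter.Eventually.and hG0 (h2.and h1))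
  · rintro x ⟨-, hx, -⟩
    exact ⟨hx.1.trans ((hπ.iff _ _).1 (le_cat f n x)), ((hπ.iff _ _).1 (cat_le f n x)).trans hx.2⟩
  · intro x hx m
    obtain ⟨k, hk⟩ := hG0c x hx.1 m
    exact ⟨k, fun x' hx' => hk x' hx'.1⟩
  · rintro x ⟨-, -, hx⟩ m
    have h3 : ec (ini (cat f n x) (n + m)) ∈ WC c (jn b (F x)) := by
      rw [← hx]
      exact ⟨n + m, rfl⟩
    obtain ⟨s, hs⟩ := WC_use h3
    refine ⟨s, ?_⟩
    rintro x' ⟨-, -, hx'⟩ hFx i hi
    have h4 : ec (ini (cat f n x) (n + m)) ∈ segs (cat f n x') := by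
      rw [hx']
      refine hs _ fun j hj => ?_
      unfold jn
      rw [hFx j hj]
    obtain ⟨t, ht⟩ := h4
    have h5 : ini (cat f n x) (n + m) = ini (cat f n x') t := by
      have := congrArg dl ht
      rwa [dl_ec, dl_ec] at this
    have h6 : n + m = t := by
      have := congrArg List.length h5
      rwa [ini_length, ini_length] at this
    subst h6
    have h7 := agree_of_ini_eq h5 (n + i) (by omega)
    unfold cat at h7
    rw [if_neg (by omega), if_neg (by omega), Nat.add_sub_cancel_left] at h7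
    exact h7.symm

end Pool.Agent.Helper20.MWF
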